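import Pool.Agent.helper21.OE.SpecA

/-! # Row oe:ACM (MP_2e0e07_nt) -/

set_option autoImplicit false

namespace Pool.Agent.OE

open MvPolynomial Matrix

theorem ACM : ACM_stmt := by
  intro d t A _ f g h P
  have h1 : act f (g * h) = (act f g).comp (act f h) := by
    apply MvPolynomial.algHom_ext
    intro i
    fin_cases i
    · simp [act, Matrix.mul_apply, Fin.sum_univ_two]
      ring
    · simp [act, Matrix.mul_apply, Fin.sum_univ_two]
      ring
    · simp [act, Matrix.mul_apply, Fin.sum_univ_two]
      ring
    · simp [act, Matrix.mul_apply, Fin.sum_univ_two]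
      ring
  rw [h1]
  rfl

end Pool.Agent.OE
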