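import Pool.Agent.helper21.OE.SpecA

/-!
# Project OE (MP_2e0e07_nt), row MPC (helper40)
-/

set_option autoImplicit false

namespace Pool.Agent.OE

open MvPolynomial Matrix

theorem MPC_bi {A B : Type} [CommRing A] [CommRing B] (ρ : A →+* B) (k : ℕ) (P : Pol A)
    (h : BiHom k P) : BiHom k (MvPolynomial.map ρ P) := by
  constructor
  · intro d hd
    refine h.1 fun h0 => hd ?_
    rw [coeff_map, h0, map_zero]
  · intro d hd
    refine h.2 fun h0 => hd ?_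
    rw [coeff_map, h0, map_zero]

theorem MPC_U (hACB : ACB_stmt) {d t : ℤ} {A B : Type} [CommRing A] [CommRing B] (f : Oz d t →+* A)
    (ρ : A →+* B) (ℓ : ℕ) (φ : Sy d t A) (u v : Vec d t) :
    opU (ρ.comp f) ℓ (fun u v => MvPolynomial.map ρ (φ u v)) u v =
      MvPolynomial.map ρ (opU f ℓ φ u v) := by
  show ∑ x : Fin ℓ × Fin ℓ, act (ρ.comp f) !![((ℓ : ℕ) : Oz d t), - rep d t x; 0, 1]
    (MvPolynomial.map ρ (φ (!![1, rep d t x; 0, ((ℓ : ℕ) : Oz d t)] *ᵥ u)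
      (!![1, rep d t x; 0, ((ℓ : ℕ) : Oz d t)] *ᵥ v))) =
    MvPolynomial.map ρ (∑ x : Fin ℓ × Fin ℓ, act f !![((ℓ : ℕ) : Oz d t), - rep d t x; 0, 1]
    (φ (!![1, rep d t x; 0, ((ℓ : ℕ) : Oz d t)] *ᵥ u) (!![1, rep d t x; 0, ((ℓ : ℕ) : Oz d t)] *ᵥ v)))
  rw [map_sum]
  refine Finset.sum_congr rfl fun x _ => ?_
  rw [hACB]

theorem MPC_T (hACB : ACB_stmt) {d t : ℤ} {A B : Type} [CommRing A] [CommRing B] (f : Oz d t →+* A)
    (ρ : A →+* B) (ℓ : ℕ) (F : Finset (GO d t)) (φ : Sy d t A) (u v : Vec d t) :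
    opT (ρ.comp f) ℓ F (fun u v => MvPolynomial.map ρ (φ u v)) u v =
      MvPolynomial.map ρ (opT f ℓ F φ u v) := by
  show ∑ g ∈ F, act (ρ.comp f) (al ℓ g.val).adjugate
    (MvPolynomial.map ρ (φ (al ℓ g.val *ᵥ u) (al ℓ g.val *ᵥ v))) =
    MvPolynomial.map ρ (∑ g ∈ F, act f (al ℓ g.val).adjugate
    (φ (al ℓ g.val *ᵥ u) (al ℓ g.val *ᵥ v)))
  rw [map_sum]
  refine Finset.sum_congr rfl fun g _ => ?_
  rw [hACB]

theorem MPC (hACB : ACB_stmt) : MPC_stmt := by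
  intro d t A B _ _ f ρ ℓ F k r N χ φ
  constructor
  · intro h
    refine ⟨fun v => ?_, fun u => ?_, fun u v w hu hv hw => ?_, fun c u v hc => ?_,
      fun c u v hc => ?_, fun u v => ?_, fun γ u v hγ => ?_⟩
    · show MvPolynomial.map ρ (φ 0 v) = 0
      rw [h.zero_left, map_zero]
    · show MvPolynomial.map ρ (φ u 0) = 0
      rw [h.zero_right, map_zero]
    · show MvPolynomial.map ρ (φ u v) + MvPolynomial.map ρ (φ v w) = MvPolynomial.map ρ (φ u w)
      rw [← map_add, h.add u v w hu hv hw]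
    · show MvPolynomial.map ρ (φ (c • u) v) = MvPolynomial.map ρ (φ u v)
      rw [h.smul_left c u v hc]
    · show MvPolynomial.map ρ (φ u (c • v)) = MvPolynomial.map ρ (φ u v)
      rw [h.smul_right c u v hc]
    · exact MPC_bi ρ k _ (h.hom u v)
    · show MvPolynomial.map ρ (φ (γ.val *ᵥ u) (γ.val *ᵥ v)) =
        ρ (χ (γ.val 1 1)) • act (ρ.comp f) γ.val (MvPolynomial.map ρ (φ u v))
      rw [h.equiv γ u v hγ, ← hACB, MvPolynomial.smul_eq_C_mul, MvPolynomial.smul_eq_C_mul,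
        map_mul, MvPolynomial.map_C]
  · funext u v
    unfold op
    by_cases hr : r = 0
    · rw [if_pos hr, if_pos hr]
      exact MPC_T hACB f ρ ℓ F φ u v
    · rw [if_neg hr, if_neg hr]
      exact MPC_U hACB f ρ ℓ φ u v

end Pool.Agent.OE
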